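import Pool.Agent.H540.TE.Lin

/-!
# Quadruplets (and all admissible constellations) of almost primes between consecutive fifth (and other) powers, the first member with two prime factors, along the differences of a sparse set

Main case of the question: for every `δ > 0` there are `c > 0` and `R` such that for all large `n` there is an
integer `x` in `(n ^ 5, n ^ 5 + n]` with the following property. For EVERY set `A` of integers in
`[1, n ^ 4]` with at least `n ^ (4 - c)` elements there are at least `n ^ (8 - δ)` pairs `b < a` of elements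
of `A` for which `q = x + (a - b)` satisfies `n ^ 5 < q < q + 8 < (n + 1) ^ 5`, `q` has at most two prime
factors, both at least `n ^ (24 / 25)`, and `q + 2`, `q + 6`, `q + 8` have at most `R` prime factors, counted
with multiplicity, all at least `n ^ c`.

General form: the same for all exponents `g ≥ 3` and all patterns `h_0, ..., h_k` with `h_i ≤ n ^ (g - 1) / 2`,
uniformly in the `h_i`, for every base point `x` in `(n ^ g, n ^ g + n ^ (g - 1) / 2]` such that the `x + h_i`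
have no prime factor below `n ^ κ` (if the pattern is admissible there are such `x` in every interval
of length `n ^ ε`, with `κ` depending on `ε` and `k`); for `g = 2` the first member has at most three prime factors. The
condition on `x` is necessary: if a small prime `p` divides some `x + h_i`, then all elements of `A` may be multiples
of `p`.

These are theorems of the type of Furstenberg and Sárközy with a power saving; for the differences `p - 1`
such a bound is a theorem of B. Green.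

Method: the small primes (up to a small power of `n`) are sieved by a combination of additive characters with
majorising properties: with `t_p (m) = (K + 1) 1_{p | m} - x_p (m)`, where `x_p` is the indicator function of the
excluded classes and their negatives, `L = ∑_{d ≤ D} (1 - log d / log D) ∏_{p | d} t_p` and its analogues `L_p`
give `f = L ^ 2 - ∑_p x_p L_p ^ 2 ≤ 0` outside of the sifted set, and the Fourier coefficients of `f`
which are not small are nonnegative, so that their contribution is bounded from below by the main term, however sparse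
`A` is. The larger prime divisors of the first member are treated by the linear sieve with the weights of Richert,
with the level `N ^ (24 / 25)`, `N = n ^ (g - 1)`: the mean free parts of their indicator functions, multiplied by
`L ^ 2` or `L_p ^ 2`, are dominated by functions with nonnegative coefficients, whose pair sums are bounded by
the large sieve; the loss by the sparsity of `A` is compensated by the gain from the size of these primes.
-/

set_option autoImplicit false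

namespace Pool.Agent.Results.MP_c03ca8_nt.QuadrupletsWithTwoFactors

open Finset Filter Pool.Agent.H540.PS

/-- All prime factors of `n` are at least `y`. -/
def Rough (y : ℝ) (n : ℤ) : Prop := ∀ p : ℕ, p.Prime → (p : ℤ) ∣ n → y ≤ (p : ℝ)

/-- `n` is positive and has at most `R` prime factors, counted with multiplicity, all at least `y`. -/
def AlmostPrime (R : ℕ) (y : ℝ) (n : ℤ) : Prop :=
  0 < n ∧ n.natAbs.primeFactorsList.length ≤ R ∧ Rough y n

/-- The pattern `h` is admissible: for every prime `p` some residue class modulo `p` is not the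
class of any of the numbers `-h i`. -/
def Admissible {k : ℕ} (h : Fin k → ℤ) : Prop := ∀ p : ℕ, p.Prime → ∃ r : ℤ, ∀ i, ¬ (p : ℤ) ∣ r + h i

/-- The number of prime factors of the first member: three for `g = 2`, otherwise two. -/
def fac (g : ℕ) : ℕ := if g = 2 then 3 else 2

open Classical in
/-- The number of pairs `b < a` of elements of `A` such that with `q = x + (a - b)` all the numbers `q + h i`
are almost primes between `n ^ g` and `(n + 1) ^ g`, and `q + h 0` has at most `fac g` prime factors, all at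
least `w`. -/
noncomputable def pairCount {k : ℕ} (R : ℕ) (y w : ℝ) (n : ℤ) (g : ℕ) (h : Fin (k + 1) → ℤ) (x : ℤ)
    (A : Finset ℤ) : ℕ :=
  ((A ×ˢ A).filter (fun z : ℤ × ℤ => z.2 < z.1 ∧ AlmostPrime (fac g) w (x + (z.1 - z.2) + h 0) ∧
    ∀ i, AlmostPrime R y (x + (z.1 - z.2) + h i) ∧
      n ^ g < x + (z.1 - z.2) + h i ∧ x + (z.1 - z.2) + h i < (n + 1) ^ g)).card

/-- `q` has at most two prime factors, all at least `w`, and `q + 2`, `q + 6`, `q + 8` are almost primes. -/
def Quadruplet (R : ℕ) (y w : ℝ) (q : ℤ) : Prop :=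
  AlmostPrime 2 w q ∧ AlmostPrime R y (q + 2) ∧ AlmostPrime R y (q + 6) ∧ AlmostPrime R y (q + 8)

open Classical in
/-- The number of pairs `b < a` of elements of `A` such that with `q = x + (a - b)` the numbers `q`, `q + 2`,
`q + 6`, `q + 8` are such a quadruplet and `n ^ 5 < q < q + 8 < (n + 1) ^ 5`. -/
noncomputable def quadCount (R : ℕ) (y w : ℝ) (n x : ℤ) (A : Finset ℤ) : ℕ :=
  ((A ×ˢ A).filter (fun z : ℤ × ℤ => z.2 < z.1 ∧ Quadruplet R y w (x + (z.1 - z.2)) ∧
    n ^ 5 < x + (z.1 - z.2) ∧ x + (z.1 - z.2) + 8 < (n + 1) ^ 5)).card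

theorem ap_of (R : ℕ) (y : ℝ) (n : ℤ) (hn : 0 < n) (h : AP R y n.natAbs) : AlmostPrime R y n :=
  ⟨hn, h.2.1, fun p hp hd => h.2.2 p hp (Int.natCast_dvd.1 hd)⟩

/-- base points -/
theorem points (k : ℕ) (ε : ℝ) (hε : 0 < ε) : ∃ (κ : ℝ) (n₀ : ℕ), 0 < κ ∧ ∀ n : ℕ, n₀ ≤ n →
    ∀ (h : Fin k → ℤ) (M : ℤ), Admissible h →
    ∃ x : ℤ, M < x ∧ (x : ℝ) ≤ M + (n : ℝ) ^ ε ∧ ∀ i, Rough ((n : ℝ) ^ κ) (x + h i) := by
  obtain ⟨κ, n0, hκ, H⟩ := base_eps k ε hε
  refine ⟨κ, n0, hκ, fun n hn h M hh => ?_⟩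
  obtain ⟨t, h1, h2, h3⟩ := H n hn (fun p m => ∃ i, (p : ℤ) ∣ m + h i) M (by
    intro p hp
    refine ⟨?_, ?_, ?_⟩
    · intro m m' hd
      apply exists_congr
      intro i
      have h' : (p : ℤ) ∣ (m + h i) - (m' + h i) := by
        rw [show m + h i - (m' + h i) = m - m' by ring]
        exact hd
      exact Int.dvd_iff_dvd_of_dvd_sub h'
    · obtain ⟨r, hr⟩ := hh p hp
      exact ⟨r, fun ⟨i, hi⟩ => hr i hi⟩
    · have hone : ¬ ((p : ℤ) ∣ 1) := by
        intro hd
        have h4 : (p : ℤ) ∣ ((1 : ℕ) : ℤ) := by exact_mod_cast hd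
        have h5 := Nat.le_of_dvd one_pos (Int.natCast_dvd_natCast.1 h4)
        have := hp.two_le
        omega
      have h4 : RR (fun m => ∃ i, (p : ℤ) ∣ m + h i) p ⊆
          (univ : Finset (Fin k)).biUnion (fun i => RR (fun m => (p : ℤ) ∣ 1 * m + h i) p) := by
        intro r hr
        rw [mem_RR] at hr
        obtain ⟨h1, i, hi⟩ := hr
        rw [mem_biUnion]
        refine ⟨i, mem_univ _, (mem_RR _ _ _).2 ⟨h1, ?_⟩⟩
        rw [one_mul]
        exact hi
      refine (card_le_card h4).trans ((card_biUnion_le_card_mul _ _ 1 ?_).trans ?_)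
      · intro i _
        exact RR_lin 1 (h i) p hp (fun h => hone h.1)
      · rw [card_univ, Fintype.card_fin, mul_one])
  exact ⟨t, h1, h2, fun i p hp hd => h3 p hp ⟨i, hd⟩⟩

theorem bern (n : ℤ) (hn : 0 ≤ n) (g : ℕ) (hg : 2 ≤ g) : n ^ g + 2 * n ^ (g - 1) < (n + 1) ^ g := by
  obtain ⟨k, rfl⟩ : ∃ k, g = k + 2 := ⟨g - 2, by omega⟩
  rw [show k + 2 - 1 = k + 1 by omega]
  induction k with
  | zero =>
    have : (n + 1) ^ (0 + 2) = n ^ (0 + 2) + 2 * n ^ (0 + 1) + 1 := by ring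
    rw [this]
    linarith
  | succ k ih =>
    have h1 := ih (by omega)
    have h2 : (n + 1) * (n ^ (k + 2) + 2 * n ^ (k + 1)) < (n + 1) * (n + 1) ^ (k + 2) :=
      mul_lt_mul_of_pos_left h1 (by linarith)
    have e1 : (n + 1) * (n + 1) ^ (k + 2) = (n + 1) ^ (k + 1 + 2) := by ring
    rw [e1] at h2
    refine lt_of_le_of_lt ?_ h2
    have e2 : (n + 1) * (n ^ (k + 2) + 2 * n ^ (k + 1)) =
        n ^ (k + 1 + 2) + 2 * n ^ (k + 1 + 1) + (n ^ (k + 2) + 2 * n ^ (k + 1)) := by ring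
    rw [e2]
    have : 0 ≤ n ^ (k + 2) + 2 * n ^ (k + 1) := by positivity
    linarith

/-- the general theorem for all patterns and all exponents -/
theorem general (k g : ℕ) (hg : 2 ≤ g) (κ δ : ℝ) (hκ : 0 < κ) (hδ : 0 < δ) :
    ∃ (c : ℝ) (R n₀ : ℕ), 0 < c ∧ ∀ n : ℕ, n₀ ≤ n → ∀ (h : Fin (k + 1) → ℤ) (x : ℤ) (A : Finset ℤ),
        (∀ i, 0 ≤ h i ∧ 2 * h i ≤ (n : ℤ) ^ (g - 1) ∧ Rough ((n : ℝ) ^ κ) (x + h i)) →
        (n : ℤ) ^ g < x → 2 * x ≤ 2 * (n : ℤ) ^ g + (n : ℤ) ^ (g - 1) →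
        (∀ a ∈ A, 1 ≤ a ∧ a ≤ (n : ℤ) ^ (g - 1)) → (n : ℝ) ^ ((g - 1 : ℕ) - c) ≤ A.card →
        (n : ℝ) ^ (2 * (g - 1 : ℕ) - δ) ≤
          pairCount R ((n : ℝ) ^ c) ((n : ℝ) ^ ((g - 1 : ℕ) * (6 / 25) : ℝ)) n g h x A := by
  classical
  obtain ⟨e, he⟩ : ∃ e : ℕ, e = g - 1 := ⟨_, rfl⟩
  have hge : g = e + 1 := by omega
  have he1 : 1 ≤ e := by omega
  have her : (1 : ℝ) ≤ e := by exact_mod_cast he1
  rw [← he]
  obtain ⟨T, hT⟩ : ∃ T : ℝ, T = (g + 1 / 100) / e := ⟨_, rfl⟩
  have hgr : (g : ℝ) = e + 1 := by rw [hge]; push_cast; ring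
  have heT : (e : ℝ) * T = g + 1 / 100 := by
    rw [hT]
    field_simp
  have hT0 : 0 ≤ T := by rw [hT]; positivity
  obtain ⟨c, R, N0, hc0, hcδ, H⟩ := linT (k + 1) (fac g) T 4 (κ / e) (δ / e) hT0 (by norm_num) (by positivity)
    (by positivity) (by
      unfold fac
      rw [← le_sub_iff_add_le', div_le_iff₀ (by norm_num)]
      split_ifs with h2
      · have h3 : e = 1 := by omega
        have h4 : T = 2 + 1 / 100 := by
          rw [hT, hgr, h3]
          norm_num
        rw [h4]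
        norm_num
      · have h3 : (2 : ℝ) ≤ e := by exact_mod_cast (by omega : 2 ≤ e)
        have h4 : T ≤ 151 / 100 := by
          rw [hT, hgr, div_le_iff₀ (by linarith)]
          linarith
        push_cast
        linarith)
  obtain ⟨N1, HN1⟩ := eventually_atTop.1 ((tpow (show (0 : ℝ) < 1 / 100 by norm_num)).eventually_ge_atTop 4)
  refine ⟨e * c, R, max (max N0 N1) 2, by positivity, ?_⟩
  intro n hn h x A hh hx1 hx2 hA hAc
  have hn2 : 2 ≤ n := (le_max_right _ _).trans hn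
  have hnN1 := HN1 n (((le_max_right _ _).trans (le_max_left _ _)).trans hn)
  have hn1 : 1 ≤ n := by omega
  have hn2z : (2 : ℤ) ≤ n := by exact_mod_cast hn2
  have hNn : N0 ≤ n ^ e := (((le_max_left _ _).trans (le_max_left _ _)).trans hn).trans
    (Nat.le_self_pow (by omega) n)
  have hne : (n : ℤ) ^ g = (n : ℤ) ^ e * n := by rw [hge, pow_succ]
  have hnn : (n : ℤ) ≤ (n : ℤ) ^ e := by
    calc (n : ℤ) = (n : ℤ) ^ 1 := (pow_one _).symm
      _ ≤ _ := pow_le_pow_right₀ (by linarith) he1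
  have hx0 : 0 < x := lt_of_le_of_lt (by positivity) hx1
  have key := H (n ^ e) hNn 1 (x + h 0) (fun _ => 1) (fun i => x + h i) A one_ne_zero (by
    obtain ⟨g1, g2, g3⟩ := hh 0
    have hx00 : 0 ≤ x + h 0 := by linarith
    rw [npow_rpow, Int.cast_one, abs_one, one_mul, abs_of_nonneg (by exact_mod_cast hx00), heT]
    have hnr : (2 : ℝ) ≤ n := by exact_mod_cast hn2
    have hneg : (n : ℤ) ^ e ≤ (n : ℤ) ^ g := pow_le_pow_right₀ (by linarith) (by omega)
    have h3 : x + h 0 + (n : ℤ) ^ e ≤ 4 * (n : ℤ) ^ g := by linarith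
    have h4 : ((x + h 0 : ℤ) : ℝ) + ((n ^ e : ℕ) : ℝ) ≤ 4 * (n : ℝ) ^ (g : ℝ) := by
      rw [Real.rpow_natCast]
      exact_mod_cast h3
    refine h4.trans ?_
    rw [Real.rpow_add (by linarith), mul_comm]
    exact mul_le_mul_of_nonneg_left hnN1 (by positivity)) (by
    intro p hp hd
    rw [npow_rpow]
    have e1 : (e : ℝ) * (κ / e) = κ := by field_simp
    rw [e1]
    refine ⟨(hh 0).2.2 p hp hd, ?_⟩
    intro h7
    have h8 := Int.natCast_dvd.1 h7
    exact hp.one_lt.ne' (Nat.dvd_one.1 h8)) (by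
    intro i
    rw [npow_rpow]
    obtain ⟨g1, g2, g3⟩ := hh i
    have e4 : (e : ℝ) * 4 = ((4 * e : ℕ) : ℝ) := by push_cast; ring
    rw [e4, Real.rpow_natCast]
    constructor
    · rw [Int.cast_one, abs_one]
      have : (1 : ℝ) ≤ n := by exact_mod_cast hn1
      exact one_le_pow₀ this
    · have hle : x + h i ≤ (n : ℤ) ^ (4 * e) := by
        have h1 : (n : ℤ) ^ (4 * e) = ((n : ℤ) ^ e) ^ 4 := by rw [← pow_mul]; congr 1; ring
        rw [h1]
        obtain ⟨w, hw⟩ : ∃ w : ℤ, w = (n : ℤ) ^ e := ⟨_, rfl⟩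
        rw [← hw] at hnn hne g2 hx2 ⊢
        have hw2 : 2 ≤ w := by linarith
        have h3 : 2 * (x + h i) ≤ 2 * (w * w) + 2 * w := by
          have : w * n ≤ w * w := mul_le_mul_of_nonneg_left hnn (by linarith)
          rw [hne] at hx2
          linarith
        have h4 : w * w + w ≤ w ^ 4 := by
          have h5 : w ^ 4 = w * w * (w * w) := by ring
          rw [h5]
          have h6 : 2 * (w * w) ≤ w * w * (w * w) := by
            have h7 : 2 ≤ w * w := by nlinarith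
            nlinarith [mul_nonneg (show (0 : ℤ) ≤ w by linarith) (show (0 : ℤ) ≤ w by linarith)]
          nlinarith
        linarith
      have h0 : 0 ≤ x + h i := by linarith
      rw [abs_of_nonneg (by exact_mod_cast h0)]
      exact_mod_cast hle) (by
    intro i p hp hd
    rw [npow_rpow]
    have e1 : (e : ℝ) * (κ / e) = κ := by field_simp
    rw [e1]
    exact (hh i).2.2 p hp hd) (by
    intro a ha
    obtain ⟨h1, h2⟩ := hA a ha
    refine ⟨h1, ?_⟩
    push_cast
    exact h2) (by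
    rw [npow_rpow]
    have e1 : (e : ℝ) * (1 - c) = e - e * c := by ring
    rw [e1]
    exact hAc)
  rw [npow_rpow] at key
  have e1 : (e : ℝ) * (2 - δ / e) = 2 * e - δ := by field_simp
  rw [e1] at key
  refine key.trans ?_
  unfold pairCount
  apply Nat.cast_le.2
  apply card_le_card
  rintro ⟨a, b⟩ hz
  rw [mem_filter, mem_product] at hz ⊢
  obtain ⟨⟨ha, hb⟩, hlt, hall⟩ := hz
  simp only at ha hb hlt hall ⊢
  obtain ⟨hmain, hall⟩ := hall
  refine ⟨⟨ha, hb⟩, hlt, ?_, ?_⟩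
  · rw [npow_rpow, show 1 * (a - b) + (x + h 0) = x + (a - b) + h 0 by ring] at hmain
    refine ap_of _ _ _ ?_ hmain
    have := (hh 0).1
    linarith
  intro i
  obtain ⟨g1, g2, g3⟩ := hh i
  have hab : a - b < (n : ℤ) ^ e := by
    have := (hA a ha).2
    have := (hA b hb).1
    linarith
  have k0 := hall i
  rw [npow_rpow, show 1 * (a - b) + (x + h i) = x + (a - b) + h i by ring] at k0
  have hb2 := bern n (by linarith) g hg
  rw [← he] at hb2
  exact ⟨ap_of _ _ _ (by linarith) k0, by linarith, by linarith⟩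

/-- the pattern of the quadruplets -/
def h4 : Fin 4 → ℤ := ![0, 2, 6, 8]

theorem adm4 : Admissible h4 := by
  intro p hp
  have h40 : h4 0 = 0 := rfl
  have h41 : h4 1 = 2 := rfl
  have h42 : h4 2 = 6 := rfl
  have h43 : h4 3 = 8 := rfl
  have hsmall : ∀ q : ℕ, 0 < q → q < p → ¬ (p : ℤ) ∣ (q : ℤ) := by
    intro q h0 hq hd
    have := Nat.le_of_dvd h0 (Int.natCast_dvd_natCast.1 hd)
    omega
  rcases lt_or_ge p 11 with h | h
  · have h2 := hp.two_le
    interval_cases p
    · exact ⟨1, by rw [Fin.forall_fin_succ, Fin.forall_fin_succ, Fin.forall_fin_succ, Fin.forall_fin_one]; decide⟩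
    · exact ⟨2, by rw [Fin.forall_fin_succ, Fin.forall_fin_succ, Fin.forall_fin_succ, Fin.forall_fin_one]; decide⟩
    · exact absurd hp (by norm_num)
    · exact ⟨1, by rw [Fin.forall_fin_succ, Fin.forall_fin_succ, Fin.forall_fin_succ, Fin.forall_fin_one]; decide⟩
    · exact absurd hp (by norm_num)
    · exact ⟨2, by rw [Fin.forall_fin_succ, Fin.forall_fin_succ, Fin.forall_fin_succ, Fin.forall_fin_one]; decide⟩
    · exact absurd hp (by norm_num)
    · exact absurd hp (by norm_num)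
    · exact absurd hp (by norm_num)
  · refine ⟨1, ?_⟩
    intro i
    fin_cases i
    · exact hsmall 1 (by norm_num) (by omega)
    · exact hsmall 3 (by norm_num) (by omega)
    · exact hsmall 7 (by norm_num) (by omega)
    · exact hsmall 9 (by norm_num) (by omega)

/-- **Quadruplets and constellations of almost primes between consecutive powers, along differences.** -/
theorem result :
    (∀ δ : ℝ, 0 < δ → ∃ (c : ℝ) (R n₀ : ℕ), 0 < c ∧ ∀ n : ℕ, n₀ ≤ n → ∃ x : ℤ,
      (n : ℤ) ^ 5 < x ∧ x ≤ (n : ℤ) ^ 5 + n ∧ ∀ A : Finset ℤ,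
        (∀ a ∈ A, 1 ≤ a ∧ a ≤ (n : ℤ) ^ 4) → (n : ℝ) ^ (4 - c) ≤ A.card →
        (n : ℝ) ^ (8 - δ) ≤ quadCount R ((n : ℝ) ^ c) ((n : ℝ) ^ (24 / 25 : ℝ)) n x A) ∧
    (∀ (k : ℕ) (ε : ℝ), 0 < ε → ∃ (κ : ℝ) (n₀ : ℕ), 0 < κ ∧ ∀ n : ℕ, n₀ ≤ n →
      ∀ (h : Fin k → ℤ) (M : ℤ), Admissible h → ∃ x : ℤ,
        M < x ∧ (x : ℝ) ≤ M + (n : ℝ) ^ ε ∧ ∀ i, Rough ((n : ℝ) ^ κ) (x + h i)) ∧
    ∀ (k g : ℕ) (κ δ : ℝ), 2 ≤ g → 0 < κ → 0 < δ → ∃ (c : ℝ) (R n₀ : ℕ), 0 < c ∧ ∀ n : ℕ, n₀ ≤ n →
      ∀ (h : Fin (k + 1) → ℤ) (x : ℤ) (A : Finset ℤ),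
        (∀ i, 0 ≤ h i ∧ 2 * h i ≤ (n : ℤ) ^ (g - 1) ∧ Rough ((n : ℝ) ^ κ) (x + h i)) →
        (n : ℤ) ^ g < x → 2 * x ≤ 2 * (n : ℤ) ^ g + (n : ℤ) ^ (g - 1) →
        (∀ a ∈ A, 1 ≤ a ∧ a ≤ (n : ℤ) ^ (g - 1)) → (n : ℝ) ^ ((g - 1 : ℕ) - c) ≤ A.card →
        (n : ℝ) ^ (2 * (g - 1 : ℕ) - δ) ≤
          pairCount R ((n : ℝ) ^ c) ((n : ℝ) ^ ((g - 1 : ℕ) * (6 / 25) : ℝ)) n g h x A := by
  classical
  refine ⟨?_, points, fun k g κ δ hg hκ hδ => general k g hg κ δ hκ hδ⟩
  intro δ hδ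
  obtain ⟨κ, n1, hκ, H1⟩ := points 4 1 one_pos
  obtain ⟨c, R, n2, hc, H2⟩ := general 3 5 (by norm_num) κ δ hκ hδ
  refine ⟨c, R, max (max n1 n2) 4, hc, ?_⟩
  intro n hn
  obtain ⟨x, hx1, hx2, hx3⟩ := H1 n (((le_max_left _ _).trans (le_max_left _ _)).trans hn) h4 ((n : ℤ) ^ 5) adm4
  have hn4 : 4 ≤ n := (le_max_right _ _).trans hn
  have hn4z : (4 : ℤ) ≤ n := by exact_mod_cast hn4
  have hxn : x ≤ (n : ℤ) ^ 5 + n := by
    rw [Real.rpow_one] at hx2
    exact_mod_cast hx2
  refine ⟨x, hx1, hxn, ?_⟩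
  intro A hA hAc
  have h16 : (16 : ℤ) ≤ (n : ℤ) ^ 4 := by
    calc (16 : ℤ) ≤ 4 ^ 4 := by norm_num
      _ ≤ (n : ℤ) ^ 4 := pow_le_pow_left₀ (by norm_num) hn4z 4
  have h2n : 2 * (n : ℤ) ≤ (n : ℤ) ^ 4 := by
    have h5 : (n : ℤ) ^ 4 = (n : ℤ) * (n : ℤ) ^ 3 := by ring
    have h6 : (2 : ℤ) ≤ (n : ℤ) ^ 3 := by
      calc (2 : ℤ) ≤ 4 ^ 3 := by norm_num
        _ ≤ (n : ℤ) ^ 3 := pow_le_pow_left₀ (by norm_num) hn4z 3
    rw [h5]
    nlinarith
  have h40 : h4 0 = 0 := rfl
  have h41 : h4 1 = 2 := rfl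
  have h42 : h4 2 = 6 := rfl
  have h43 : h4 3 = 8 := rfl
  have key := H2 n (((le_max_right _ _).trans (le_max_left _ _)).trans hn) h4 x A (by
    intro i
    refine ⟨?_, ?_, hx3 i⟩
    · fin_cases i
      · exact h40.ge
      · show 0 ≤ h4 1
        rw [h41]; norm_num
      · show 0 ≤ h4 2
        rw [h42]; norm_num
      · show 0 ≤ h4 3
        rw [h43]; norm_num
    · have h5 : h4 i ≤ 8 := by
        fin_cases i
        · show h4 0 ≤ 8
          rw [h40]; norm_num
        · show h4 1 ≤ 8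
          rw [h41]; norm_num
        · show h4 2 ≤ 8
          rw [h42]; norm_num
        · show h4 3 ≤ 8
          rw [h43]
      rw [show 5 - 1 = 4 by norm_num]
      linarith) hx1 (by
    rw [show 5 - 1 = 4 by norm_num]
    linarith) (by
    rw [show 5 - 1 = 4 by norm_num]
    exact hA) (by
    rw [show 5 - 1 = 4 by norm_num]
    exact hAc)
  rw [show 5 - 1 = 4 by norm_num] at key
  have e1 : (2 : ℝ) * ((4 : ℕ) : ℝ) - δ = 8 - δ := by push_cast; ring
  have e2 : ((4 : ℕ) : ℝ) * (6 / 25) = 24 / 25 := by norm_num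
  rw [e1, e2] at key
  refine key.trans ?_
  unfold pairCount quadCount
  apply Nat.cast_le.2
  apply card_le_card
  rintro ⟨a, b⟩ hz
  rw [mem_filter, mem_product] at hz ⊢
  obtain ⟨⟨ha, hb⟩, hlt, hall⟩ := hz
  simp only at ha hb hlt hall ⊢
  obtain ⟨hmain, hall⟩ := hall
  have hf : fac 5 = 2 := by unfold fac; norm_num
  rw [h40, add_zero, hf] at hmain
  refine ⟨⟨ha, hb⟩, hlt, ?_⟩
  have k0 := hall 0
  have k1 := hall 1
  have k2 := hall 2
  have k3 := hall 3
  rw [h40, add_zero] at k0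
  rw [h41] at k1
  rw [h42] at k2
  rw [h43] at k3
  exact ⟨⟨hmain, k1.1, k2.1, k3.1⟩, k0.2.1, k3.2.2⟩

end Pool.Agent.Results.MP_c03ca8_nt.QuadrupletsWithTwoFactors
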